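import Pool.Agent.Results.MP_81d707_al.NoFiniteBasis

set_option autoImplicit false

/-!
# Classes of semigroups without large left zero subsemigroups have no quasi-identity basis in
boundedly many variables, if `L` satisfies all their quasi-identities
-/

namespace Pool.Agent.Results.MP_81d707_al.BoundedVariables

open Pool.Agent.Results.MP_81d707_al.NoFiniteBasis

universe u v w

/-- `S` has no left zero subsemigroup with `m` elements. -/
def NoLeftZero (m : ℕ) (S : Type u) [Semigroup S] : Prop :=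
  ¬ ∃ x : Fin m → S, Function.Injective x ∧ ∀ i j, x i * x j = x i

/-- `S` has no right zero subsemigroup with `m` elements. -/
def NoRightZero (m : ℕ) (S : Type u) [Semigroup S] : Prop :=
  ¬ ∃ x : Fin m → S, Function.Injective x ∧ ∀ i j, x i * x j = x j

/-- left regular bands -/
def IsLRB (S : Type u) [Semigroup S] : Prop :=
  (∀ x : S, x * x = x) ∧ ∀ x y : S, x * y * x = x * y

/-- right regular bands -/
def IsRRB (S : Type u) [Semigroup S] : Prop :=
  (∀ x : S, x * x = x) ∧ ∀ x y : S, x * y * x = y * x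

/-- Some set of quasi-identities in boundedly many variables which are true in all semigroups
`S i` implies, at least for the finite semigroups `T` with the property `P`, every quasi-identity
true in all `S i`. -/
def HasBoundedBasis (P : ∀ (T : Type) [Semigroup T], Prop) {I : Type w} (S : I → Type u)
    [∀ i, Semigroup (S i)] : Prop :=
  ∃ (n : ℕ) (Bs : Set QuasiIdentity),
    (∀ p ∈ Bs, p.vars.card ≤ n ∧ ∀ i, p.Holds (S i)) ∧
    ∀ q : QuasiIdentity, (∀ i, q.Holds (S i)) →
      ∀ (T : Type) [Semigroup T], Finite T → P T → (∀ p ∈ Bs, p.Holds T) → q.Holds T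

/-! ### Local and global homomorphisms -/

theorem local_holds {K : Type v} [Semigroup K] {B : Type} [Semigroup B] (n : ℕ)
    (hLoc : ∀ G : Finset B, G.card ≤ n → ∃ T : Set B, ↑G ⊆ T ∧ (∀ u ∈ T, ∀ v ∈ T, u * v ∈ T) ∧
        ∀ y ∈ T, ∀ z ∈ T, y ≠ z →
          ∃ h : B → K, (∀ u ∈ T, ∀ v ∈ T, h (u * v) = h u * h v) ∧ h y ≠ h z)
    (p : QuasiIdentity) (hp : p.vars.card ≤ n) (htrue : p.Holds K) : p.Holds B := by
  classical
  intro f hf
  by_contra hne
  obtain ⟨T, hGT, hT, hTsep⟩ := hLoc (p.vars.image f) (Finset.card_image_le.trans hp)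
  have hmem : ∀ k ∈ p.vars, f k ∈ T := fun k hk =>
    hGT (Finset.mem_coe.mpr (Finset.mem_image_of_mem f hk))
  have hc1 : ∀ k ∈ vars p.concl.1, f k ∈ T := fun k hk => hmem k
    (Finset.mem_union_left _ (Finset.mem_union_left _ hk))
  have hc2 : ∀ k ∈ vars p.concl.2, f k ∈ T := fun k hk => hmem k
    (Finset.mem_union_left _ (Finset.mem_union_right _ hk))
  have hp1 : ∀ e ∈ p.prem, ∀ k ∈ vars e.1, f k ∈ T := fun e he k hk => hmem k
    (Finset.mem_union_right _ (Finset.mem_biUnion.mpr
      ⟨e, List.mem_toFinset.mpr he, Finset.mem_union_left _ hk⟩))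
  have hp2 : ∀ e ∈ p.prem, ∀ k ∈ vars e.2, f k ∈ T := fun e he k hk => hmem k
    (Finset.mem_union_right _ (Finset.mem_biUnion.mpr
      ⟨e, List.mem_toFinset.mpr he, Finset.mem_union_right _ hk⟩))
  obtain ⟨h, hh, hyz⟩ := hTsep _ (lift_mem T hT f _ hc1) _ (lift_mem T hT f _ hc2) hne
  apply hyz
  rw [lift_map T hT h hh f _ hc1, lift_map T hT h hh f _ hc2]
  apply htrue
  intro e he
  rw [← lift_map T hT h hh f _ (hp1 e he), ← lift_map T hT h hh f _ (hp2 e he), hf e he]

/-- the quasi-identity given by the multiplication table -/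
theorem table {B : Type} [Semigroup B] [Fintype B] (a b : B) (hab : a ≠ b) :
    ∃ q : QuasiIdentity, ¬ q.Holds B ∧ ∀ (S : Type u) [Semigroup S],
      (∀ h : B → S, (∀ u v, h (u * v) = h u * h v) → h a = h b) → q.Holds S := by
  classical
  obtain ⟨ι, hι⟩ : ∃ ι : B → ℕ, Function.Injective ι := by
    obtain ⟨k, ⟨e⟩⟩ := Finite.exists_equiv_fin B
    exact ⟨fun x => (e x : ℕ), fun x y hxy => e.injective (Fin.ext hxy)⟩
  let q : QuasiIdentity :=
    ⟨(Finset.univ : Finset (B × B)).toList.map fun yz =>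
      (FreeSemigroup.of (ι yz.1) * FreeSemigroup.of (ι yz.2), FreeSemigroup.of (ι (yz.1 * yz.2))),
      (FreeSemigroup.of (ι a), FreeSemigroup.of (ι b))⟩
  refine ⟨q, ?_, ?_⟩
  · intro hqB
    have : Nonempty B := ⟨a⟩
    have hinv : ∀ x, Function.invFun ι (ι x) = x := Function.leftInverse_invFun hι
    have h1 := hqB (Function.invFun ι) (by
      intro e he
      obtain ⟨⟨y, z⟩, -, rfl⟩ := List.mem_map.mp he
      simp only [map_mul, FreeSemigroup.lift_of, hinv])
    have h2 : FreeSemigroup.lift (Function.invFun ι) (FreeSemigroup.of (ι a)) =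
        FreeSemigroup.lift (Function.invFun ι) (FreeSemigroup.of (ι b)) := h1
    rw [FreeSemigroup.lift_of, FreeSemigroup.lift_of, hinv, hinv] at h2
    exact hab h2
  · intro S _ hSep f hf
    show FreeSemigroup.lift f (FreeSemigroup.of (ι a)) = FreeSemigroup.lift f (FreeSemigroup.of (ι b))
    rw [FreeSemigroup.lift_of, FreeSemigroup.lift_of]
    refine hSep (fun x => f (ι x)) ?_
    intro y z
    have := hf (FreeSemigroup.of (ι y) * FreeSemigroup.of (ι z), FreeSemigroup.of (ι (y * z)))
      (List.mem_map.mpr ⟨(y, z), Finset.mem_toList.mpr (Finset.mem_univ _), rfl⟩)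
    simp only [map_mul, FreeSemigroup.lift_of] at this
    exact this.symm

variable {m r : ℕ}

/-- the two ends of the cut walk are not separated by homomorphisms to semigroups without left
zero subsemigroups of `m` elements -/
theorem glob' {S : Type u} [Semigroup S] (hm : NoLeftZero m S) (hr : 0 < r)
    (h : GS (Gam m r) → S) (hh : ∀ u v, h (u * v) = h u * h v) :
    h (GS.vx Vt.ap) = h (GS.vx Vt.am) := by
  obtain ⟨i, j, hij, heq⟩ : ∃ i j : Fin m, i ≠ j ∧
      h (GS.vx (Vt.x i)) = h (GS.vx (Vt.x j)) := by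
    by_contra hc
    push Not at hc
    refine hm ⟨fun i => h (GS.vx (Vt.x i)), ?_, fun i j => ?_⟩
    · intro i j hij
      by_contra hne
      exact hc i j hne hij
    · rw [← hh]
      rfl
  have step : ∀ k : ℕ, k < 2 * r → h (GS.vx (vt i j k)) = h (GS.vx (vt i j (k + 1))) := by
    intro k hk
    let e : Ed m r := ((i, j), ⟨k, hk⟩)
    have hi : sg (Gam m r) (dd e) (GS.vx (Vt.x i)) = some true := by
      show some (!decide (i = j)) = some true
      simp [hij]
    have hj : sg (Gam m r) (dd e) (GS.vx (Vt.x j)) = some false := by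
      show some (!decide (j = j)) = some false
      simp
    have e1 : (GS.ed e : GS (Gam m r)) * (GS.vx (Vt.x i) : GS (Gam m r)) =
        GS.vx (ee e true) := by
      show eml (Gam m r) e (sg (Gam m r) (dd e) (GS.vx (Vt.x i))) = _
      rw [hi]; rfl
    have e2 : (GS.ed e : GS (Gam m r)) * (GS.vx (Vt.x j) : GS (Gam m r)) =
        GS.vx (ee e false) := by
      show eml (Gam m r) e (sg (Gam m r) (dd e) (GS.vx (Vt.x j))) = _
      rw [hj]; rfl
    have h1 := hh (GS.ed e) (GS.vx (Vt.x i))
    have h2 := hh (GS.ed e) (GS.vx (Vt.x j))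
    rw [heq, ← h2, e1, e2] at h1
    rcases ee_cases e with ⟨c1, c2⟩ | ⟨c1, c2⟩
    · rw [c1, c2] at h1; exact h1
    · rw [c1, c2] at h1; exact h1.symm
  have all : ∀ k : ℕ, k ≤ 2 * r → h (GS.vx Vt.ap) = h (GS.vx (vt i j k)) := by
    intro k
    induction k with
    | zero => intro _; rfl
    | succ k ih => intro hk; rw [ih (by omega), step k (by omega)]
  rw [all (2 * r) le_rfl, vt_last i j hr]

/-- the semigroup of a graph is a left regular band -/
theorem lrb_GS {V E Λ : Type} [DecidableEq Λ] (Γ : Gr V E Λ) : IsLRB (GS Γ) := by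
  refine ⟨fun x => ?_, fun x y => ?_⟩
  · rcases x with v | e
    · rfl
    · show eml Γ e (if Γ.dir e = Γ.dir e then none else some (Γ.f (Γ.ep e true) (Γ.dir e))) = _
      rw [if_pos rfl]
      rfl
  · rcases x with v | e
    · rfl
    · rw [mul_assoc]
      show eml Γ e (sg Γ (Γ.dir e) (gmul Γ y (GS.ed e))) = eml Γ e (sg Γ (Γ.dir e) y)
      rw [sg_gmul]
      have h1 : sg Γ (Γ.dir e) (GS.ed e) = none := by
        show (if Γ.dir e = Γ.dir e then none else some (Γ.f (Γ.ep e true) (Γ.dir e))) = none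
        rw [if_pos rfl]
      rw [h1]
      congr 1
      rcases sg Γ (Γ.dir e) y with _ | s <;> rfl

/-- the bands of the theorem -/
theorem bands (m n : ℕ) :
    ∃ (B : Type) (_ : Semigroup B) (_ : Fintype B) (a b : B), a ≠ b ∧ IsLRB B ∧
      (∀ (S : Type u) [Semigroup S], NoLeftZero m S →
        ∀ h : B → S, (∀ u v, h (u * v) = h u * h v) → h a = h b) ∧
      ∀ G : Finset B, G.card ≤ n → ∃ T : Set B, ↑G ⊆ T ∧ (∀ u ∈ T, ∀ v ∈ T, u * v ∈ T) ∧
        ∀ y ∈ T, ∀ z ∈ T, y ≠ z →
          ∃ h : B → L, (∀ u ∈ T, ∀ v ∈ T, h (u * v) = h u * h v) ∧ h y ≠ h z := by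
  refine ⟨GS (Gam m (n + 2)), inferInstance, inferInstance,
    GS.vx Vt.ap, GS.vx Vt.am, ?_, lrb_GS _, ?_, ?_⟩
  · intro h
    simp at h
  · intro S _ hS h hh
    exact glob' hS (by omega) h hh
  · intro G hG
    choose g hg using fun i j => missing n (by omega) G hG i j
    refine ⟨{u | ∀ e : Ed m (n + 2), u = GS.ed e → e.2 ≠ g e.1.1 e.1.2},
      ?_, ?_, ?_⟩
    · intro u hu e he hk
      subst he
      obtain ⟨⟨i, j⟩, k⟩ := e
      apply hg i j
      have hk' : k = g i j := hk
      rw [← hk']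
      exact hu
    · intro u hu v _ e he
      rcases u with w | e'
      · have h1 : (GS.vx w : GS (Gam m (n + 2))) = GS.ed e := he
        simp at h1
      · have he' : eml (Gam m (n + 2)) e'
          (sg (Gam m (n + 2)) (dd e') v) = GS.ed e := he
        rcases hs : sg (Gam m (n + 2)) (dd e') v with _ | s
        · rw [hs] at he'
          have h1 : (GS.ed e' : GS (Gam m (n + 2))) = GS.ed e := he'
          have h2 : e' = e := by simpa using h1
          exact hu e (by rw [h2])
        · rw [hs] at he'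
          have h1 : (GS.vx (ee e' s) : GS (Gam m (n + 2))) = GS.ed e := he'
          simp at h1
    · intro y _ z _ hyz
      obtain ⟨h, h1, h2⟩ := loc (by omega) g y z hyz
      exact ⟨h, fun u hu v _ => h1 u v hu, h2⟩

/-- **Uniform form.** -/
theorem uniform_L (m n : ℕ) : ∃ (q : QuasiIdentity) (B : Type) (_ : Semigroup B), Finite B ∧
    IsLRB B ∧ ¬ q.Holds B ∧ (∀ p : QuasiIdentity, p.vars.card ≤ n → p.Holds L → p.Holds B) ∧
    ∀ (S : Type u) [Semigroup S], NoLeftZero m S → q.Holds S := by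
  obtain ⟨B, i1, i2, a, b, hab, h0, h1, h2⟩ := bands.{u} m n
  obtain ⟨q, hq1, hq2⟩ := table.{u} a b hab
  exact ⟨q, B, i1, inferInstance, h0, hq1, fun p hp hL => local_holds n h2 p hp hL,
    fun S _ hS => hq2 S (h1 S hS)⟩

/-- `L` is anti-isomorphic to `R` -/
def rho : L → R
  | L.zero => R.zero
  | L.pos => R.pos
  | L.neg => R.neg

theorem rho_mul (u v : L) : rho (u * v) = rho v * rho u := by
  cases u <;> cases v <;> rfl

theorem rho_inj : Function.Injective rho := by
  intro u v h
  cases u <;> cases v <;> simp_all [rho]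

/-- **Uniform form, right hand version.** -/
theorem uniform_R (m n : ℕ) : ∃ (q : QuasiIdentity) (B : Type) (_ : Semigroup B), Finite B ∧
    IsRRB B ∧ ¬ q.Holds B ∧ (∀ p : QuasiIdentity, p.vars.card ≤ n → p.Holds R → p.Holds B) ∧
    ∀ (S : Type u) [Semigroup S], NoRightZero m S → q.Holds S := by
  classical
  obtain ⟨B, i1, i2, a, b, hab, h0, h1, h2⟩ := bands.{u} m n
  haveI : Fintype Bᵐᵒᵖ := Fintype.ofEquiv B MulOpposite.opEquiv
  obtain ⟨q, hq1, hq2⟩ := table.{u} (MulOpposite.op a) (MulOpposite.op b)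
    (fun h => hab (MulOpposite.op_injective h))
  refine ⟨q, Bᵐᵒᵖ, inferInstance, inferInstance, ⟨?_, ?_⟩, hq1, ?_, ?_⟩
  · intro x
    apply MulOpposite.unop_injective
    exact h0.1 x.unop
  · intro x y
    apply MulOpposite.unop_injective
    show x.unop * (y.unop * x.unop) = x.unop * y.unop
    rw [← mul_assoc]
    exact h0.2 x.unop y.unop
  · intro p hp hR
    refine local_holds (K := R) n (fun G hG => ?_) p hp hR
    obtain ⟨T, hT1, hT2, hT3⟩ := h2 (G.image MulOpposite.unop) (Finset.card_image_le.trans hG)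
    refine ⟨{u | u.unop ∈ T}, ?_, ?_, ?_⟩
    · intro u hu
      exact hT1 (Finset.mem_coe.mpr (Finset.mem_image_of_mem _ (Finset.mem_coe.mp hu)))
    · intro u hu v hv
      exact hT2 _ hv _ hu
    · intro y hy z hz hyz
      obtain ⟨h, hh1, hh2⟩ := hT3 y.unop hy z.unop hz (fun h => hyz (MulOpposite.unop_injective h))
      refine ⟨fun u => rho (h u.unop), ?_, fun heq => hh2 (rho_inj heq)⟩
      intro u hu v hv
      show rho (h (v.unop * u.unop)) = _
      rw [hh1 _ hv _ hu, rho_mul]
  · intro S _ hS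
    refine hq2 S ?_
    intro h hh
    have hop : NoLeftZero m Sᵐᵒᵖ := by
      rintro ⟨x, hx1, hx2⟩
      refine hS ⟨fun i => (x i).unop, fun i j hij => hx1 (MulOpposite.unop_injective hij),
        fun i j => ?_⟩
      have := congrArg MulOpposite.unop (hx2 j i)
      simpa using this
    have := h1 Sᵐᵒᵖ hop (fun u => MulOpposite.op (h (MulOpposite.op u))) (by
      intro u v
      rw [MulOpposite.op_mul, hh, MulOpposite.op_mul])
    exact MulOpposite.op_injective this

/-! ### Consequences for classes -/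

theorem class_L {I : Type w} (S : I → Type u) [∀ i, Semigroup (S i)] (m : ℕ)
    (hm : ∀ i, NoLeftZero m (S i)) (hL : ∀ q : QuasiIdentity, (∀ i, q.Holds (S i)) → q.Holds L) :
    ¬ HasBoundedBasis (fun T _ => IsLRB T) S := by
  rintro ⟨n, Bs, hBs, hall⟩
  obtain ⟨q, B, i1, hfin, hlrb, hq, hp, hS⟩ := uniform_L.{u} m n
  exact hq (hall q (fun i => hS (S i) (hm i)) B hfin hlrb
    (fun p hpB => hp p (hBs p hpB).1 (hL p (hBs p hpB).2)))

theorem class_R {I : Type w} (S : I → Type u) [∀ i, Semigroup (S i)] (m : ℕ)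
    (hm : ∀ i, NoRightZero m (S i)) (hR : ∀ q : QuasiIdentity, (∀ i, q.Holds (S i)) → q.Holds R) :
    ¬ HasBoundedBasis (fun T _ => IsRRB T) S := by
  rintro ⟨n, Bs, hBs, hall⟩
  obtain ⟨q, B, i1, hfin, hlrb, hq, hp, hS⟩ := uniform_R.{u} m n
  exact hq (hall q (fun i => hS (S i) (hm i)) B hfin hlrb
    (fun p hpB => hp p (hBs p hpB).1 (hR p (hBs p hpB).2)))

/-- a quasi-identity true in a semigroup is true in its subsemigroups -/
theorem holds_of_injective {K : Type v} [Semigroup K] {S : Type u} [Semigroup S] (φ : K →ₙ* S)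
    (hφ : Function.Injective φ) (q : QuasiIdentity) (hq : q.Holds S) : q.Holds K := by
  intro f hf
  have key : ∀ w : FreeSemigroup ℕ, φ (FreeSemigroup.lift f w) =
      FreeSemigroup.lift (fun n => φ (f n)) w := by
    intro w
    induction w using FreeSemigroup.recOnMul with
    | ih1 n => rw [FreeSemigroup.lift_of, FreeSemigroup.lift_of]
    | ih2 n w h1 h2 => rw [map_mul, map_mul, map_mul, h1, h2]
  apply hφ
  rw [key, key]
  apply hq
  intro e he
  rw [← key, ← key, hf e he]

/-- a finite basis is a basis in boundedly many variables -/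
theorem bounded_of_finite (P : ∀ (T : Type) [Semigroup T], Prop) (S : Type u) [Semigroup S]
    (h : HasFiniteBasis S) : HasBoundedBasis P (fun _ : Unit => S) := by
  classical
  obtain ⟨Bs, hfin, htrue, hall⟩ := h
  refine ⟨hfin.toFinset.sup fun p => (QuasiIdentity.vars p).card, Bs, fun p hp => ⟨?_, fun _ =>
    htrue p hp⟩, fun q hq T _ _ _ hT => hall q (hq ()) T hT⟩
  exact Finset.le_sup (f := fun p => (QuasiIdentity.vars p).card) (hfin.mem_toFinset.mpr hp)

theorem noLeftZero_of_idempotents (S : Type u) [Semigroup S] [Finite {e : S // e * e = e}] :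
    NoLeftZero (Nat.card {e : S // e * e = e} + 1) S := by
  rintro ⟨x, hx1, hx2⟩
  have hinj : Function.Injective (fun i => (⟨x i, hx2 i i⟩ : {e : S // e * e = e})) := by
    intro i j hij
    exact hx1 (congrArg Subtype.val hij)
  have := Nat.card_le_card_of_injective _ hinj
  rw [Nat.card_fin] at this
  omega

theorem noRightZero_of_idempotents (S : Type u) [Semigroup S] [Finite {e : S // e * e = e}] :
    NoRightZero (Nat.card {e : S // e * e = e} + 1) S := by
  rintro ⟨x, hx1, hx2⟩
  have hinj : Function.Injective (fun i => (⟨x i, hx2 i i⟩ : {e : S // e * e = e})) := by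
    intro i j hij
    exact hx1 (congrArg Subtype.val hij)
  have := Nat.card_le_card_of_injective _ hinj
  rw [Nat.card_fin] at this
  omega

/-- the quasi-identities `x₀ x₀ = x₀` and `x₀ x₁ x₀ = x₀ x₁` without premises -/
def qBand : QuasiIdentity :=
  ⟨[], (FreeSemigroup.of 0 * FreeSemigroup.of 0, FreeSemigroup.of 0)⟩

/-- see `qBand` -/
def qReg : QuasiIdentity :=
  ⟨[], (FreeSemigroup.of 0 * FreeSemigroup.of 1 * FreeSemigroup.of 0,
    FreeSemigroup.of 0 * FreeSemigroup.of 1)⟩

theorem qBand_iff (T : Type v) [Semigroup T] : qBand.Holds T ↔ ∀ x : T, x * x = x := by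
  constructor
  · intro h x
    have h1 := h (fun _ => x) (by simp [qBand])
    simpa [qBand, FreeSemigroup.lift_of] using h1
  · intro h f _
    show FreeSemigroup.lift f (FreeSemigroup.of 0 * FreeSemigroup.of 0) =
      FreeSemigroup.lift f (FreeSemigroup.of 0)
    rw [map_mul, FreeSemigroup.lift_of, h]

theorem qReg_iff (T : Type v) [Semigroup T] :
    qReg.Holds T ↔ ∀ x y : T, x * y * x = x * y := by
  constructor
  · intro h x y
    have h1 := h (fun n => if n = 0 then x else y) (by simp [qReg])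
    simpa [qReg, FreeSemigroup.lift_of, map_mul] using h1
  · intro h f _
    show FreeSemigroup.lift f (FreeSemigroup.of 0 * FreeSemigroup.of 1 * FreeSemigroup.of 0) =
      FreeSemigroup.lift f (FreeSemigroup.of 0 * FreeSemigroup.of 1)
    rw [map_mul, map_mul, FreeSemigroup.lift_of, FreeSemigroup.lift_of, h]

/-- **Main theorem.** -/
theorem result :
    -- (1) the uniform statement
    (∀ m n : ℕ, ∃ (q : QuasiIdentity) (B : Type) (_ : Semigroup B), Finite B ∧ IsLRB B ∧
      ¬ q.Holds B ∧ (∀ p : QuasiIdentity, p.vars.card ≤ n → p.Holds L → p.Holds B) ∧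
      ∀ (S : Type u) [Semigroup S], NoLeftZero m S → q.Holds S) ∧
    -- (2) classes of semigroups
    (∀ (I : Type w) (S : I → Type u) [∀ i, Semigroup (S i)] (m : ℕ), (∀ i, NoLeftZero m (S i)) →
      (∀ q : QuasiIdentity, (∀ i, q.Holds (S i)) → q.Holds L) →
      ¬ HasBoundedBasis (fun T _ => IsLRB T) S) ∧
    (∀ (I : Type w) (S : I → Type u) [∀ i, Semigroup (S i)] (m : ℕ), (∀ i, NoRightZero m (S i)) →
      (∀ q : QuasiIdentity, (∀ i, q.Holds (S i)) → q.Holds R) →
      ¬ HasBoundedBasis (fun T _ => IsRRB T) S) ∧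
    -- (3) single semigroups, possibly infinite
    (∀ (S : Type u) [Semigroup S] (m : ℕ),
      ((∃ φ : L →ₙ* S, Function.Injective φ) ∧ NoLeftZero m S ∨
        (∃ φ : R →ₙ* S, Function.Injective φ) ∧ NoRightZero m S) → ¬ HasFiniteBasis S) ∧
    (∀ (S : Type u) [Semigroup S], {e : S | e * e = e}.Finite →
      ((∃ φ : L →ₙ* S, Function.Injective φ) ∨ (∃ φ : R →ₙ* S, Function.Injective φ)) →
      ¬ HasFiniteBasis S) ∧
    -- (4) the full answer of the question: finite semigroups
    (∀ (S : Type u) [Semigroup S] [Finite S],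
      ((∃ φ : L →ₙ* S, Function.Injective φ) ∨ (∃ φ : R →ₙ* S, Function.Injective φ)) →
      ¬ HasFiniteBasis S) ∧
    -- (5) without the bound on the left zero subsemigroups the statement fails
    (∀ q : QuasiIdentity, (∀ (S : Type) [Semigroup S], Finite S → IsLRB S → q.Holds S) →
      ∀ (T : Type) [Semigroup T], Finite T → qBand.Holds T → qReg.Holds T → q.Holds T) := by
  have h3 : ∀ (S : Type u) [Semigroup S] (m : ℕ),
      ((∃ φ : L →ₙ* S, Function.Injective φ) ∧ NoLeftZero m S ∨
        (∃ φ : R →ₙ* S, Function.Injective φ) ∧ NoRightZero m S) → ¬ HasFiniteBasis S := by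
    rintro S _ m (⟨⟨φ, hφ⟩, hm⟩ | ⟨⟨φ, hφ⟩, hm⟩) hfb
    · exact class_L (fun _ : Unit => S) m (fun _ => hm)
        (fun q hq => holds_of_injective φ hφ q (hq ())) (bounded_of_finite _ S hfb)
    · exact class_R (fun _ : Unit => S) m (fun _ => hm)
        (fun q hq => holds_of_injective φ hφ q (hq ())) (bounded_of_finite _ S hfb)
  have h4 : ∀ (S : Type u) [Semigroup S], {e : S | e * e = e}.Finite →
      ((∃ φ : L →ₙ* S, Function.Injective φ) ∨ (∃ φ : R →ₙ* S, Function.Injective φ)) →
      ¬ HasFiniteBasis S := by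
    intro S _ hfin hS
    haveI : Finite {e : S // e * e = e} := hfin.to_subtype
    refine h3 S (Nat.card {e : S // e * e = e} + 1) ?_
    rcases hS with h | h
    · exact Or.inl ⟨h, noLeftZero_of_idempotents S⟩
    · exact Or.inr ⟨h, noRightZero_of_idempotents S⟩
  refine ⟨fun m n => uniform_L.{u} m n, fun I S _ m => class_L S m, fun I S _ m => class_R S m,
    h3, h4, fun S _ _ hS => h4 S (Set.toFinite _) hS, ?_⟩
  intro q hq T _ hfin h1 h2
  exact hq T hfin ⟨(qBand_iff T).1 h1, (qReg_iff T).1 h2⟩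

end Pool.Agent.Results.MP_81d707_al.BoundedVariables
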